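import Mathlib

set_option autoImplicit false

namespace Pool.Agent.H.MP_da2089_gt

open Set Filter

def Lip {X Y : Type*} (f : X → Y → ℝ) (u : X → ℝ) : Prop :=
  ∀ x x' C, 0 ≤ C → (∀ y, |f x y - f x' y| ≤ C) → |u x - u x'| ≤ C

def Rel {X Y : Type*} (f : X → Y → ℝ) : Setoid X where
  r x x' := ∃ C, ∀ y, |f x y - f x' y| ≤ C
  iseqv := ⟨fun _ => ⟨0, by simp⟩, fun ⟨C, h⟩ => ⟨C, fun y => abs_sub_comm (f _ y) _ ▸ h y⟩,
    fun ⟨C, h⟩ ⟨D, h'⟩ => ⟨C + D, fun y => (abs_sub_le _ _ _).trans (add_le_add (h y) (h' y))⟩⟩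

lemma lip_class {X Y : Type*} (f : X → Y → ℝ) (w : Quotient (Rel f) → ℝ) :
    Lip f fun x => w (Quotient.mk _ x) := fun x x' C hC h => by
  simpa [Quotient.sound (s := Rel f) ⟨C, h⟩]

lemma lip_sup {X Y : Type*} (f : X → Y → ℝ) (g : X → Y → ℝ)
    (h : ∀ x x', (Rel f).r x x' → g x = g x') : Lip f fun x => ⨆ y, |f x y - g x y| := by
  have key : ∀ x x' C, 0 ≤ C → (∀ y, |f x y - f x' y| ≤ C) →
      (BddAbove (range fun y => |f x' y - g x' y|)) → BddAbove (range fun y => |f x y - g x y|) ∧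
      (⨆ y, |f x y - g x y|) - (⨆ y, |f x' y - g x' y|) ≤ C := fun x x' C hC h1 h2 => by
    have h3 : ∀ y, |f x y - g x y| ≤ C + ⨆ y, |f x' y - g x' y| := fun y => by
      rw [h x x' ⟨C, h1⟩]
      exact (abs_sub_le _ _ _).trans (add_le_add (h1 y) (le_ciSup h2 y))
    exact ⟨⟨_, forall_mem_range.2 h3⟩, sub_le_iff_le_add.2 (Real.iSup_le h3
      (add_nonneg hC (Real.iSup_nonneg fun _ => abs_nonneg _)))⟩
  intro x x' C hC h1
  have h2 : ∀ y, |f x' y - f x y| ≤ C := fun y => abs_sub_comm (f _ y) _ ▸ h1 y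
  by_cases h3 : BddAbove (range fun y => |f x' y - g x' y|)
  · exact abs_sub_le_iff.2 ⟨(key _ _ C hC h1 h3).2, (key _ _ C hC h2 (key _ _ C hC h1 h3).1).2⟩
  · simpa [Real.iSup_of_not_bddAbove h3,
      Real.iSup_of_not_bddAbove fun h4 => h3 (key _ _ C hC h2 h4).1]

theorem core {X Y : Type*} (F : Filter X) (G : Filter Y) (f : X → Y → ℝ)
    (hX : ∀ u, Lip f u → ∃ M, ∀ᶠ x in F, |u x| ≤ M)
    (hY : ∀ u, Lip (fun y x => f x y) u → ∃ M, ∀ᶠ y in G, |u y| ≤ M)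
    (cX : ∀ A ∈ F, ∃ M, ∀ᶠ y in G, ∀ x ∉ A, |f x y| ≤ M)
    (cY : ∀ A ∈ G, ∃ M, ∀ᶠ x in F, ∀ y ∉ A, |f x y| ≤ M) :
    ∃ A ∈ F, ∃ B ∈ G, ∃ M, ∀ x y, x ∈ A ∨ y ∈ B → |f x y| ≤ M := by
  classical
  suffices h : ∀ᶠ x in F, BddAbove (range fun y => |f x y - 0|) by
    obtain ⟨M, hM⟩ := hX _ (lip_sup f (fun _ _ => 0) fun _ _ _ => rfl)
    obtain ⟨N, hN⟩ := cX _ (h.and hM)
    refine ⟨_, h.and hM, _, hN, max M N, fun x y h1 => ?_⟩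
    by_cases h2 : BddAbove (range fun y => |f x y - 0|) ∧ abs (⨆ y, |f x y - 0|) ≤ M
    · exact le_max_of_le_left (sub_zero (f x y) ▸ (le_ciSup h2.1 y).trans (le_of_abs_le h2.2))
    · exact le_max_of_le_right ((h1.resolve_left h2) x h2)
  let f' : Y → X → ℝ := fun y x => f x y
  let ρ : Y → Y := fun y => (Quotient.mk (Rel f') y).out
  obtain ⟨C, hC⟩ := hY _ (lip_sup f' (fun y => f' (ρ y)) fun y y' h => by
    simp only [ρ, Quotient.sound (s := Rel f') h])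
  have h1 : ∀ᶠ y in G, ∀ x, |f x y - f x (ρ y)| ≤ C := hC.mono fun y hy x => by
    obtain ⟨D, hD⟩ := (Rel f').symm (Quotient.mk_out (s := Rel f') y)
    exact (le_ciSup (f := fun x => |f x y - f x (ρ y)|) ⟨D, forall_mem_range.2 hD⟩ x).trans
      (le_of_abs_le hy)
  set A₀ := {y | ∀ x, |f x y - f x (ρ y)| ≤ C}
  have h2 : ∀ n : ℕ, ∃ D : Set (X × Set Y), Maximal (fun D => (∀ p ∈ D, (∀ y ∈ p.2, y ∈ A₀ ∧
      n < |f p.1 y|) ∧ ∀ M, ∃ y ∈ p.2, M < |f p.1 y|) ∧ D.PairwiseDisjoint (ρ '' ·.2)) D :=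
    fun n => zorn_subset {D : Set (X × Set Y) | _} fun c h1 h2 => ⟨⋃₀ c,
      ⟨fun U ⟨_, h3, h4⟩ => (h1 h3).1 U h4, (pairwise_sUnion h2.directedOn).2 fun _ h3 =>
        (h1 h3).2⟩, fun _ => subset_sUnion_of_mem⟩
  choose D hD using h2
  have h3 : ∀ n, ∀ᶠ x in F, ∀ p ∈ D n, ¬ (Rel f).r x p.1 := fun n => by
    obtain ⟨k, hk⟩ := hY _ (lip_class f' fun w =>
      if h : ∃ p ∈ D n, w.out ∈ ρ '' p.2 then |f h.choose.1 w.out| else 0)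
    obtain ⟨M, hM⟩ := cY _ hk
    filter_upwards [hM] with x hx p hp ⟨E, hE⟩
    obtain ⟨y, h3, h4⟩ := ((hD n).prop.1 p hp).2 (max (k + C) (M + E))
    have h5 : ∃ p ∈ D n, ρ y ∈ ρ '' p.2 := ⟨p, hp, y, h3, rfl⟩
    have h6 : h5.choose = p := (hD n).prop.2.elim_set h5.choose_spec.1 hp _ h5.choose_spec.2
      ⟨y, h3, rfl⟩
    have h7 := (((hD n).prop.1 p hp).1 y h3).1 p.1
    have h8 := hx y fun h8 => by
      have h9 : |(if h : ∃ p ∈ D n, ρ y ∈ ρ '' p.2 then |f h.choose.1 (ρ y)| else 0)| ≤ k := h8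
      rw [dif_pos h5, h6, abs_abs] at h9
      linarith [abs_sub_abs_le_abs_sub (f p.1 y) (f p.1 (ρ y)), le_max_left (k + C) (M + E)]
    linarith [abs_sub_abs_le_abs_sub (f p.1 y) (f x y), le_max_right (k + C) (M + E), hE y,
      abs_sub_comm (f x y) (f p.1 y)]
  have h4 : ∀ᶠ x in F, ∀ n, ∀ p ∈ D n, ¬ (Rel f).r x p.1 := by
    obtain ⟨k, hk⟩ := hX _ (lip_class f fun w =>
      if h : ∃ n, ∃ p ∈ D n, w = Quotient.mk _ p.1 then (h.choose : ℕ) else 0)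
    filter_upwards [hk, (eventually_all_finite (finite_le_nat ⌈k⌉₊)).2 fun n _ => h3 n]
      with x h4 h5 n p hp h6
    have h7 : ∃ n, ∃ p ∈ D n, Quotient.mk (Rel f) x = Quotient.mk _ p.1 :=
      ⟨n, p, hp, Quotient.sound h6⟩
    obtain ⟨q, h8, h9⟩ := h7.choose_spec
    rw [dif_pos h7, Nat.abs_cast] at h4
    exact h5 _ (show _ ≤ _ by exact_mod_cast h4.trans (Nat.le_ceil k)) q h8 (Quotient.exact h9)
  obtain ⟨M, hM⟩ := cX _ h4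
  obtain ⟨n, hn⟩ := exists_nat_gt (M + C + C)
  obtain ⟨N, hN⟩ := cY _ (hM.and h1)
  filter_upwards [hN] with x hx
  by_contra h5
  let S := {y ∈ A₀ | n < |f x y| ∧ ∀ p ∈ D n, ρ y ∉ ρ '' p.2}
  have h6 : ∀ K, ∃ y ∈ S, K < |f x y| := fun K => by
    obtain ⟨_, ⟨y, rfl⟩, hy⟩ := not_bddAbove_iff.1 h5 (max N (max n K))
    simp only [sub_zero, max_lt_iff] at hy
    have h6 := by_contra fun h => (hx y h).not_gt hy.1
    refine ⟨y, ⟨h6.2, hy.2.1, fun p hp ⟨z, h7, h8⟩ => ?_⟩, hy.2.2⟩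
    have h9 := h6.1 p.1 fun h => h n p hp ((Rel f).refl _)
    have h10 := ((hD n).prop.1 p hp).1 z h7
    have h11 := h10.1 p.1
    rw [h8] at h11
    linarith [h10.2, h6.2 p.1, abs_sub_abs_le_abs_sub (f p.1 z) (f p.1 (ρ y)),
      abs_sub_abs_le_abs_sub (f p.1 (ρ y)) (f p.1 y), abs_sub_comm (f p.1 (ρ y)) (f p.1 y)]
  have h7 := (hD n).eq_of_subset (t := insert (x, S) (D n)) ⟨forall_mem_insert.2
    ⟨⟨fun y hy => ⟨hy.1, hy.2.1⟩, h6⟩, (hD n).prop.1⟩, (hD n).prop.2.insert fun p hp _ =>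
      disjoint_left.2 fun _ ⟨y, h7, h8⟩ h9 => h7.2.2 p hp (h8 ▸ h9)⟩ (subset_insert _ _)
  obtain ⟨y, h8, -⟩ := h6 0
  exact h8.2.2 _ (h7 ▸ mem_insert (x, S) _) ⟨y, h8, rfl⟩

end Pool.Agent.H.MP_da2089_gt
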