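import Pool.Agent.H.MP_da2089_gt.Core

set_option autoImplicit false

namespace Pool.Agent.H.MP_da2089_gt

open Set Filter

def Bd {X : Type*} (ℰ : Set (Set (X × X))) (B : Set X) : Prop :=
  ∃ E ∈ ℰ, ∃ x, B ⊆ {y | (x, y) ∈ E}

def Osc {X : Type*} (ℰ : Set (Set (X × X))) (f : X → ℝ) (E : Set (X × X)) (C : ℝ) : Prop :=
  ∃ B, Bd ℰ B ∧ ∀ x ∉ B, ∀ a b, (x, a) ∈ E → (x, b) ∈ E → |f a - f b| ≤ C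

def box {X Y : Type*} (E : Set (X × X)) (F : Set (Y × Y)) : Set ((X × Y) × (X × Y)) :=
  {p | (p.1.1, p.2.1) ∈ E ∧ (p.1.2, p.2.2) ∈ F}

def Good {X : Type*} (ℰ : Set (Set (X × X))) : Prop :=
  (∀ x y, ∃ E ∈ ℰ, (x, y) ∈ E) ∧ ∀ E ∈ ℰ, ∀ F ∈ ℰ, ∃ D ∈ ℰ, (∀ x, (x, x) ∈ D) ∧ E ⊆ D ∧
    (∀ x y z, (x, y) ∈ E → (y, z) ∈ F → (x, z) ∈ D) ∧
    (∀ x y z, (y, x) ∈ E → (y, z) ∈ F → (x, z) ∈ D)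

def cob {X : Type*} {ℰ : Set (Set (X × X))} (h : Good ℰ) (x₀ : X) : Filter X where
  sets := {A | Bd ℰ Aᶜ}
  univ_sets := (h.1 x₀ x₀).imp fun E hE => ⟨hE.1, x₀, by simp⟩
  sets_of_superset := fun ⟨E, h1, x, h2⟩ h3 => ⟨E, h1, x, (compl_subset_compl.2 h3).trans h2⟩
  inter_sets := fun ⟨E, h1, x, h2⟩ ⟨F, h3, y, h4⟩ => by
    obtain ⟨G, h5, h6⟩ := h.1 x y
    obtain ⟨D, h7, -, -, h8, -⟩ := h.2 G h5 F h3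
    obtain ⟨E', h9, h10, h11, -⟩ := h.2 E h1 E h1
    obtain ⟨D', h12, -, h13, h14, -⟩ := h.2 E' h9 D h7
    exact ⟨D', h12, x, compl_inter _ _ ▸ union_subset (fun z hz => h13 (h11 (h2 hz)))
      fun z hz => h14 x x z (h10 x) (h8 x y z h6 (h4 hz))⟩

lemma cob_compl {X : Type*} {ℰ : Set (Set (X × X))} (h : Good ℰ) (x₀ : X) {B : Set X}
    (hB : Bd ℰ B) : Bᶜ ∈ cob h x₀ := show Bd ℰ Bᶜᶜ by rwa [compl_compl]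

variable {X Y : Type*} {ℰ : Set (Set (X × X))} {ℱ : Set (Set (Y × Y))}

def Osc2 (ℰ : Set (Set (X × X))) (ℱ : Set (Set (Y × Y))) (f : X → Y → ℝ) (E : Set (X × X))
    (F : Set (Y × Y)) (C : ℝ) : Prop :=
  ∃ A B, Bd ℰ A ∧ Bd ℱ B ∧ ∀ x y, x ∉ A ∨ y ∉ B → ∀ a b c d, (x, a) ∈ E → (x, b) ∈ E →
    (y, c) ∈ F → (y, d) ∈ F → |f a c - f b d| ≤ C

lemma Osc2.symm {f : X → Y → ℝ} {E F C} (h : Osc2 ℰ ℱ f E F C) :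
    Osc2 ℱ ℰ (fun y x => f x y) F E C :=
  let ⟨A, B, h1, h2, h3⟩ := h
  ⟨B, A, h2, h1, fun y x h a b c d h4 h5 h6 h7 => h3 x y h.symm c d a b h6 h7 h4 h5⟩

lemma Osc2.lip {f : X → Y → ℝ} {E F C u} (h : Osc2 ℰ ℱ f E F C) (hC : 0 ≤ C)
    (hF : ∀ y, (y, y) ∈ F) (hu : Lip f u) : Osc ℰ u E C :=
  let ⟨A, _, h1, _, h3⟩ := h
  ⟨A, h1, fun x hx a b h4 h5 => hu a b C hC fun y =>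
    h3 x y (Or.inl hx) a b y y h4 h5 (hF y) (hF y)⟩

lemma side (h1 : Good ℰ) (h2 : Good ℱ) (x₀ : X) (y₀ : Y) {f : X → Y → ℝ}
    (ho : ∀ E ∈ ℰ, ∀ F ∈ ℱ, ∃ C, Osc2 ℰ ℱ f E F C)
    (hY : ∀ u, Lip (fun y x => f x y) u → ∃ M, ∀ᶠ y in cob h2 y₀, |u y| ≤ M) :
    ∀ A ∈ cob h1 x₀, ∃ M, ∀ᶠ y in cob h2 y₀, ∀ x ∉ A, |f x y| ≤ M := by
  rintro A ⟨E, h3, x, h4⟩
  obtain ⟨D, h5, h6, h7, -⟩ := h1.2 E h3 E h3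
  obtain ⟨F, h8, -⟩ := h2.1 y₀ y₀
  obtain ⟨F', h9, h10, -⟩ := h2.2 F h8 F h8
  obtain ⟨C, A', B, -, h11, h12⟩ := ho D h5 F' h9
  obtain ⟨M, hM⟩ := hY (f x) fun y y' C _ h => h x
  refine ⟨C + M, ?_⟩
  filter_upwards [hM, cob_compl h2 y₀ h11] with y h13 h14 z hz
  have := h12 x y (Or.inr h14) z x y y (h7 (h4 hz)) (h6 x) (h10 y) (h10 y)
  linarith [abs_sub_abs_le_abs_sub (f z y) (f x y)]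

theorem main (h1 : Good ℰ) (h2 : Good ℱ) (x₀ : X) (y₀ : Y) {f : X → Y → ℝ}
    (ho : ∀ E ∈ ℰ, ∀ F ∈ ℱ, ∃ C, Osc2 ℰ ℱ f E F C)
    (hX : ∀ u, Lip f u → ∃ B, Bd ℰ B ∧ ∃ M, ∀ x ∉ B, |u x| ≤ M)
    (hY : ∀ u, Lip (fun y x => f x y) u → ∃ B, Bd ℱ B ∧ ∃ M, ∀ y ∉ B, |u y| ≤ M) :
    ∃ E ∈ ℰ, ∃ F ∈ ℱ, ∃ p : X × Y, ∃ M, ∀ q : X × Y, (p, q) ∉ box E F → |f q.1 q.2| ≤ M := by
  have hX' : ∀ u, Lip f u → ∃ M, ∀ᶠ x in cob h1 x₀, |u x| ≤ M := fun u hu =>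
    let ⟨B, h3, M, h4⟩ := hX u hu
    ⟨M, mem_of_superset (cob_compl h1 x₀ h3) h4⟩
  have hY' : ∀ u, Lip (fun y x => f x y) u → ∃ M, ∀ᶠ x in cob h2 y₀, |u x| ≤ M := fun u hu =>
    let ⟨B, h3, M, h4⟩ := hY u hu
    ⟨M, mem_of_superset (cob_compl h2 y₀ h3) h4⟩
  obtain ⟨A, ⟨E, h3, x, h4⟩, B, ⟨F, h5, y, h6⟩, M, h7⟩ := core _ _ f hX' hY'
    (side h1 h2 x₀ y₀ ho hY') (side h2 h1 y₀ x₀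
      (fun F hF E hE => (ho E hE F hF).imp fun _ h => h.symm) hX')
  exact ⟨E, h3, F, h5, (x, y), M, fun q hq => h7 _ _ (by_contra fun h =>
    hq ⟨h4 fun c => h (Or.inl c), h6 fun c => h (Or.inr c)⟩)⟩

lemma osc2 {𝒢 : Set (Set ((X × Y) × (X × Y)))} (h : ∀ G ∈ 𝒢, ∃ E ∈ ℰ, ∃ F ∈ ℱ, G ⊆ box E F)
    {f : X × Y → ℝ} {E F C} (ho : Osc 𝒢 f (box E F) C) :
    Osc2 ℰ ℱ (fun x y => f (x, y)) E F C := by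
  obtain ⟨B, ⟨G, h1, p, h2⟩, h3⟩ := ho
  obtain ⟨E', h4, F', h5, h6⟩ := h G h1
  exact ⟨_, _, ⟨E', h4, p.1, subset_rfl⟩, ⟨F', h5, p.2, subset_rfl⟩, fun x y h7 a b c d h8 h9 h10 h11 =>
    h3 (x, y) (fun h => h7.elim (· (h6 (h2 h)).1) (· (h6 (h2 h)).2)) (a, c) (b, d) ⟨h8, h10⟩
      ⟨h9, h11⟩⟩

lemma Good.diag (h : Good ℰ) (x : X) : ∃ E ∈ ℰ, ∀ y, (y, y) ∈ E :=
  let ⟨E, h1, _⟩ := h.1 x x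
  let ⟨D, h2, h3, _⟩ := h.2 E h1 E h1
  ⟨D, h2, h3⟩

lemma good_of_base (h1 : ∀ E ∈ ℰ, ∀ x, (x, x) ∈ E)
    (h2 : ∀ E ∈ ℰ, ∀ F ∈ ℰ, ∃ D ∈ ℰ, ∀ x y z, (x, y) ∈ E → (z, y) ∈ F → (x, z) ∈ D)
    (h3 : ∀ x y, ∃ E ∈ ℰ, (x, y) ∈ E) : Good ℰ := by
  refine ⟨h3, fun E hE F hF => ?_⟩
  obtain ⟨E', h4, h5⟩ := h2 E hE E hE
  obtain ⟨F', h6, h7⟩ := h2 F hF F hF
  obtain ⟨D, h8, h9⟩ := h2 E' h4 F' h6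
  exact ⟨D, h8, h1 D h8, fun p hp => h9 _ _ _ (h5 _ _ _ hp (h1 E hE _)) (h1 F' h6 _),
    fun x y z h h' => h9 x y z (h5 _ _ _ h (h1 E hE _)) (h7 _ _ _ (h1 F hF _) h'),
    fun x y z h h' => h9 x y z (h5 _ _ _ (h1 E hE _) h) (h7 _ _ _ (h1 F hF _) h')⟩

lemma good_of_coarse (h1 : {p | p.1 = p.2} ∈ ℰ) (h2 : ∀ E ∈ ℰ, ∀ F ∈ ℰ, E ∪ F ∈ ℰ)
    (h3 : ∀ E ∈ ℰ, Prod.swap ⁻¹' E ∈ ℰ)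
    (h4 : ∀ E ∈ ℰ, ∀ F ∈ ℰ, {p | ∃ y, (p.1, y) ∈ E ∧ (y, p.2) ∈ F} ∈ ℰ)
    (h5 : ∀ x y, ∃ E ∈ ℰ, (x, y) ∈ E) : Good ℰ :=
  ⟨h5, fun _ hE _ hF => ⟨_, h2 _ (h2 _ h1 _ hE) _ (h2 _ (h4 _ hE _ hF) _ (h4 _ (h3 _ hE) _ hF)),
    fun _ => Or.inl (Or.inl rfl), fun _ h => Or.inl (Or.inr h),
    fun _ y _ h h' => Or.inr (Or.inl ⟨y, h, h'⟩), fun _ y _ h h' => Or.inr (Or.inr ⟨y, h, h'⟩)⟩⟩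

end Pool.Agent.H.MP_da2089_gt
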